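import Pool.Agent.Seat74.FM.Cnt
import Pool.Agent.Seat74.BM.Near

/-!
# No curve is congruent to a given curve if a polynomial in the numerator and denominator of its invariant has a divisor
# near a power of a typical real number

Let `v_n` be real exponents such that the sums of `exp (-t v_n)` converge for all `t > 0`, for instance `v_n = n` or
`v_n = (n + 1) ^ r`, `r > 0`. Let `Q ∈ ℤ[x, y]`, `A > 0`, `0 ≤ θ < 1`, `P ≥ 17`. For `α > 1` and large `n` we consider all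
elliptic curves `E` over `ℚ` whose invariant `j = a / b` in lowest terms has the following property: `Q(a, b) ≠ 0` has a
divisor `d` with `|d - α ^ (v_n)| ≤ α ^ (θ v_n)` and `|a|, b ≤ d ^ A`. For instance `Q = x`: the numerator of `j` has a divisor
near `α ^ n` which is at least `H(j) ^ (1 / A)`; `Q = y`: the denominator; `Q = x - 1728 y`: the numerator of `j - 1728`.

* For all `α > 1` outside a set of Hausdorff dimension at most `7 A / (2 P (1 - θ))`: for EVERY elliptic curve `E₀` over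
  `ℚ` and all large `n`, no such `E` is `p`-congruent to `E₀` for a prime `p ≥ P`.
* For each `η > 0` there is `δ > 0` such that for all `α > 1` outside a set of dimension at most
  `A (7 / (2 P) + η) / (1 - θ)`, for all large `n`, no such `E` is `p`-congruent for a prime `p ≥ P` to ANY curve
  `y² = x³ + A₀ x + B₀` with integers `|A₀|, |B₀| ≤ H(j(E)) ^ δ`.

Here `P = 19` gives all primes of the conjecture. The integers near the powers of `α` are a very sparse set, and so this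
does not follow from a count of the exceptional `j`. The starting result `ThinSequences` and others are about values of
sequences or functions; `InvariantWindows` is about the height of `j`.

Proof: the number of the exceptional `j` of height at most `H` is at most `C |Δ₀| ^ κ H ^ (7 / (2 P) + ε)` by the starting
theorem `FewPartners`; the divisors of the values `Q(a, b)` are counted by the divisor bound, and the metric statement is
`Pool.Agent.R485.AN.dim_pow`.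
-/

set_option autoImplicit false

open Filter Topology

namespace Pool.Agent.Results.MP_a60a76_nt.DivisorsNearPowers

open Pool.Agent.Results.MP_a60a76_nt.InvariantWindows (ht jInvariant Congruent Exc)
open Pool.Agent.Seat74.BM (DivSet near_one)

/-- the sums of `exp (-t v n)` converge for all `t > 0` -/
def Thin (v : ℕ → ℝ) : Prop := ∀ t : ℝ, 0 < t → Summable fun n : ℕ => Real.exp (-(t * v n))

/-- some elliptic curve over `ℚ` with invariant `j` is `p`-congruent to `y² = x³ + A₀ x + B₀` for some prime `p ≥ P` -/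
def IsPartner (P : ℕ) (A₀ B₀ : ℤ) (j : ℚ) : Prop :=
  ∃ A B : ℚ, 4 * A ^ 3 + 27 * B ^ 2 ≠ 0 ∧ jInvariant A B = j ∧
    ∃ p : ℕ, p.Prime ∧ P ≤ p ∧ Congruent p A B (A₀ : ℚ) (B₀ : ℚ)

/-- this is the case for some curve `y² = x³ + A₀ x + B₀` with integers `A₀`, `B₀` of absolute value at most
`H(j) ^ δ` -/
def HasSmallPartner (P : ℕ) (δ : ℝ) (j : ℚ) : Prop :=
  ∃ A₀ B₀ : ℤ, 4 * A₀ ^ 3 + 27 * B₀ ^ 2 ≠ 0 ∧ |(A₀ : ℝ)| ≤ (ht j : ℝ) ^ δ ∧ |(B₀ : ℝ)| ≤ (ht j : ℝ) ^ δ ∧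
    IsPartner P A₀ B₀ j

/-- `j = a / b` in lowest terms, `Q(a, b) ≠ 0` is divisible by `d`, and `|a|, b ≤ d ^ A` -/
def Divides (Q : MvPolynomial (Fin 2) ℤ) (A : ℝ) (d : ℕ) (j : ℚ) : Prop :=
  MvPolynomial.eval ![j.num, (j.den : ℤ)] Q ≠ 0 ∧ (d : ℤ) ∣ MvPolynomial.eval ![j.num, (j.den : ℤ)] Q ∧
    (ht j : ℝ) ≤ (d : ℝ) ^ A

/-- `a / b` is in lowest terms and belongs to `S` -/
def Bd (S : Set ℚ) (a b : ℤ) : Prop := ∃ j ∈ S, a = j.num ∧ b = j.den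

theorem ht_le {j : ℚ} {X : ℝ} (h1 : |((j.num : ℤ) : ℝ)| ≤ X) (h2 : |(((j.den : ℕ) : ℤ) : ℝ)| ≤ X) :
    (ht j : ℝ) ≤ X := by
  have h3 : |(j.num : ℝ)| = (j.num.natAbs : ℝ) := by
    rw [← Int.cast_abs, Int.abs_eq_natAbs]
    simp
  have h4 : (((j.den : ℕ) : ℤ) : ℝ) = (j.den : ℝ) := by push_cast; ring
  rw [h3] at h1
  rw [h4, abs_of_nonneg (Nat.cast_nonneg _)] at h2
  unfold InvariantWindows.ht
  push_cast
  exact max_le h1 h2

theorem le_ht {j : ℚ} {X : ℝ} (h : (ht j : ℝ) ≤ X) :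
    |((j.num : ℤ) : ℝ)| ≤ X ∧ |(((j.den : ℕ) : ℤ) : ℝ)| ≤ X := by
  have h3 : |(j.num : ℝ)| = (j.num.natAbs : ℝ) := by
    rw [← Int.cast_abs, Int.abs_eq_natAbs]
    simp
  have h4 : (((j.den : ℕ) : ℤ) : ℝ) = (j.den : ℝ) := by push_cast; ring
  have hn : (j.num.natAbs : ℝ) ≤ (ht j : ℝ) := by exact_mod_cast le_max_left j.num.natAbs j.den
  have hd : (j.den : ℝ) ≤ (ht j : ℝ) := by exact_mod_cast le_max_right j.num.natAbs j.den
  rw [h3, h4, abs_of_nonneg (Nat.cast_nonneg _)]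
  exact ⟨hn.trans h, hd.trans h⟩

theorem mem_divSet {S : Set ℚ} {Q : MvPolynomial (Fin 2) ℤ} {A : ℝ} {d : ℕ} {j : ℚ} (hj : j ∈ S)
    (h : Divides Q A d j) : d ∈ DivSet (Bd S) Q A := by
  obtain ⟨h1, h2, h3⟩ := h
  obtain ⟨h4, h5⟩ := le_ht h3
  exact ⟨j.num, j.den, ⟨j, hj, rfl, rfl⟩, h1, h2, h4, h5⟩

theorem count_Bd {S : Set ℚ} {C σ : ℝ} (h : ∀ X : ℝ, 1 ≤ X → ∀ F : Finset ℚ,
    (∀ j ∈ F, (ht j : ℝ) ≤ X ∧ j ∈ S) → (F.card : ℝ) ≤ C * X ^ σ) (Y : ℝ) (hY : 1 ≤ Y) (s : Finset (ℤ × ℤ))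
    (hs : ∀ x ∈ s, Bd S x.1 x.2 ∧ |(x.1 : ℝ)| ≤ Y ∧ |(x.2 : ℝ)| ≤ Y) : (s.card : ℝ) ≤ C * Y ^ σ := by
  classical
  have h1 : (s.image fun x : ℤ × ℤ => ((x.1 : ℚ) / (x.2 : ℚ))).card = s.card := by
    refine Finset.card_image_of_injOn ?_
    intro x hx y hy hxy
    obtain ⟨⟨j, hj, e1, e2⟩, -⟩ := hs x hx
    obtain ⟨⟨k, hk, e3, e4⟩, -⟩ := hs y hy
    have h2 : (x.1 : ℚ) / (x.2 : ℚ) = j := by
      rw [e1, e2]
      push_cast
      exact Rat.num_div_den j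
    have h3 : (y.1 : ℚ) / (y.2 : ℚ) = k := by
      rw [e3, e4]
      push_cast
      exact Rat.num_div_den k
    have h4 : j = k := by
      rw [← h2, ← h3]
      exact hxy
    refine Prod.ext ?_ ?_
    · rw [e1, e3, h4]
    · rw [e2, e4, h4]
  rw [← h1]
  refine h Y hY _ fun j hj => ?_
  obtain ⟨x, hx, rfl⟩ := Finset.mem_image.1 hj
  obtain ⟨⟨k, hk, e1, e2⟩, g1, g2⟩ := hs x hx
  have h2 : (x.1 : ℚ) / (x.2 : ℚ) = k := by
    rw [e1, e2]
    push_cast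
    exact Rat.num_div_den k
  rw [h2]
  refine ⟨ht_le ?_ ?_, hk⟩
  · rw [← e1]
    exact g1
  · rw [← e2]
    exact g2

/-- **Theorem.** See above. -/
theorem result :
    (∀ v : ℕ → ℝ, Thin v → ∀ (P : ℕ) (Q : MvPolynomial (Fin 2) ℤ) (A θ : ℝ), 17 ≤ P → 0 < A → 0 ≤ θ → θ < 1 →
      ∃ E : Set ℝ, dimH E ≤ ENNReal.ofReal (A * (7 / (2 * P)) / (1 - θ)) ∧ ∀ α : ℝ, 1 < α → α ∉ E →
        ∀ A₀ B₀ : ℤ, 4 * A₀ ^ 3 + 27 * B₀ ^ 2 ≠ 0 → ∀ᶠ n in atTop, ∀ d : ℕ,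
          |(d : ℝ) - α ^ (v n)| ≤ (α ^ (v n)) ^ θ → ∀ j : ℚ, Divides Q A d j → ¬ IsPartner P A₀ B₀ j) ∧
    (∀ η : ℝ, 0 < η → ∃ δ : ℝ, 0 < δ ∧ ∀ v : ℕ → ℝ, Thin v → ∀ (P : ℕ) (Q : MvPolynomial (Fin 2) ℤ) (A θ : ℝ),
      17 ≤ P → 0 < A → 0 ≤ θ → θ < 1 →
        ∃ E : Set ℝ, dimH E ≤ ENNReal.ofReal (A * (7 / (2 * P) + η) / (1 - θ)) ∧ ∀ α : ℝ, 1 < α → α ∉ E →
          ∀ᶠ n in atTop, ∀ d : ℕ, |(d : ℝ) - α ^ (v n)| ≤ (α ^ (v n)) ^ θ → ∀ j : ℚ, Divides Q A d j →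
            ¬ HasSmallPartner P δ j) ∧
    Thin (fun n : ℕ => (n : ℝ)) ∧ (∀ r : ℝ, 0 < r → Thin (fun n : ℕ => ((n : ℝ) + 1) ^ r)) := by
  refine ⟨fun v hv P Q A θ hP hA hθ0 hθ1 => ?_, fun η hη => ?_, Pool.Agent.Seat74.BM.thin_id,
    Pool.Agent.Seat74.BM.thin_pow⟩
  · have key : ∀ z : {z : ℤ × ℤ // 4 * z.1 ^ 3 + 27 * z.2 ^ 2 ≠ 0}, ∃ E : Set ℝ,
        dimH E ≤ ENNReal.ofReal (A * (7 / (2 * P)) / (1 - θ)) ∧ ∀ α : ℝ, 1 < α → α ∉ E →
          ∃ n₀ : ℕ, ∀ n : ℕ, n₀ ≤ n → ∀ d : ℕ, |(d : ℝ) - α ^ (v n)| ≤ (α ^ (v n)) ^ θ →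
            d ∉ DivSet (Bd (Exc P z.1.1 z.1.2)) Q A := fun z =>
      near_one hv (by positivity) (fun ε hε => by
        obtain ⟨C, hC⟩ := Pool.Agent.Seat74.FM.countE P hP z.1.1 z.1.2 z.2 ε hε
        refine ⟨max C 1, lt_of_lt_of_le one_pos (le_max_right _ _), fun Y hY s hs => ?_⟩
        refine (count_Bd hC Y hY s hs).trans ?_
        have : 0 < Y := by linarith
        gcongr
        exact le_max_left _ _) Q hA hθ0 hθ1
    choose E hE1 hE2 using key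
    refine ⟨⋃ z, E z, ?_, fun α hα hαE A₀ B₀ h0 => ?_⟩
    · rw [dimH_iUnion]
      exact iSup_le hE1
    · have h1 : α ∉ E ⟨(A₀, B₀), h0⟩ := fun hcon => hαE (Set.mem_iUnion.2 ⟨_, hcon⟩)
      obtain ⟨n₀, hn⟩ := hE2 _ α hα h1
      filter_upwards [eventually_ge_atTop n₀] with n hn1 d hd j hj hcon
      exact hn n hn1 d hd (mem_divSet hcon hj)
  · obtain ⟨δ, hδ, C, hC, h⟩ := Pool.Agent.Seat74.FM.countG η hη
    refine ⟨δ, hδ, fun v hv P Q A θ hP hA hθ0 hθ1 => ?_⟩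
    obtain ⟨E, hE1, hE2⟩ := near_one hv (Bd := Bd (Pool.Agent.Seat74.FM.ExcG P δ)) (σ := 7 / (2 * P) + η)
      (by positivity) (fun ε hε => by
        refine ⟨C + 1, by linarith, fun Y hY s hs => ?_⟩
        refine (count_Bd (h P · hP) Y hY s hs).trans ?_
        have h9 : Y ^ (7 / (2 * (P : ℝ)) + η) ≤ Y ^ (7 / (2 * (P : ℝ)) + η + ε) :=
          Real.rpow_le_rpow_of_exponent_le hY (by linarith)
        have h10 : 0 ≤ Y ^ (7 / (2 * (P : ℝ)) + η + ε) := Real.rpow_nonneg (by linarith) _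
        calc C * Y ^ (7 / (2 * (P : ℝ)) + η) ≤ C * Y ^ (7 / (2 * (P : ℝ)) + η + ε) :=
              mul_le_mul_of_nonneg_left h9 hC
          _ ≤ (C + 1) * Y ^ (7 / (2 * (P : ℝ)) + η + ε) := mul_le_mul_of_nonneg_right (by linarith) h10)
        Q hA hθ0 hθ1
    refine ⟨E, hE1, fun α hα hαE => ?_⟩
    obtain ⟨n₀, hn⟩ := hE2 α hα hαE
    filter_upwards [eventually_ge_atTop n₀] with n hn1 d hd j hj hcon
    exact hn n hn1 d hd (mem_divSet (S := Pool.Agent.Seat74.FM.ExcG P δ) hcon hj)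

end Pool.Agent.Results.MP_a60a76_nt.DivisorsNearPowers
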