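import Pool.Agent.Seat74.FM.Cnt

/-!
# No curve with invariant near a typical point is congruent to a given curve, or to any curve with small coefficients

Let `X` be any metric space and `c : ℚ → X` any map; the main examples are `X = ℝ`, `X = ℚ_q`, and products of such
fields, with `c j = j`. For a point `x` of `X` and `τ > 0` we consider all elliptic curves `E` over `ℚ` whose
invariant `j` satisfies `dist (x, c j) ≤ H(j) ^ (-τ)`, where `H(j)` is the height. For irrational real `x` and `τ < 2`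
there are infinitely many such `j`, and about `H ^ (2 - τ)` of height at most `H`.

* For `P ≥ 17`, `τ > 0` and each `x` outside a set of Hausdorff dimension at most `7 / (2 P τ)`: for EVERY elliptic
  curve `E₀` over `ℚ`, only finitely many such `j` are invariants of elliptic curves over `ℚ` which are `p`-congruent
  to `E₀` for some prime `p ≥ P`.
* For each `η > 0` there is `δ > 0` such that for `P ≥ 17`, `τ > 0` and each `x` outside a set of dimension at most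
  `(7 / (2 P) + η) / τ`, for all but finitely many such `j`, no elliptic curve of invariant `j` is `p`-congruent for some
  prime `p ≥ P` to ANY curve `y² = x³ + A₀ x + B₀` with integers `|A₀|, |B₀| ≤ H(j) ^ δ`.
* There is a set of Hausdorff dimension ZERO such that for each `x` outside it and each `τ > 0` the statement about
  curves with `|A₀|, |B₀| ≤ H(j) ^ δ` is true for some `P` and some `δ > 0`.

For `P = 19` (all primes of the conjecture) the first dimension is `7 / (38 τ)`; in the case of the real numbers it is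
less than `1` for `τ > 7 / 38`, so that for almost all real `x` and every `E₀` the conjecture is true for `E₀` and all
curves `E` with `|x - j(E)| ≤ H(j(E)) ^ (-0.19)`, but for finitely many `j(E)`.

The starting result `InvariantWindows` is about the invariants with height in short windows. Proof: the number of
the exceptional `j` of height at most `H` is at most `C |Δ₀| ^ κ H ^ (7 / (2 P) + ε)` by the starting theorem `FewPartners`,
where `C`, `κ` depend only on `ε`, and coverings by balls of radius `H ^ (-τ)` (`Pool.Agent.Helper29S.dim_family`).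
-/

set_option autoImplicit false

open Filter Topology

namespace Pool.Agent.Results.MP_a60a76_nt.InvariantsNearPoints

open Pool.Agent.Results.MP_a60a76_nt.InvariantWindows (ht jInvariant Congruent)

/-- the `j` near `x`, at distance at most `H(j) ^ (-τ)` -/
def Near {X : Type} [MetricSpace X] (c : ℚ → X) (τ : ℝ) (x : X) : Set ℚ :=
  {j | dist x (c j) ≤ (ht j : ℝ) ^ (-τ)}

/-- some elliptic curve over `ℚ` with invariant `j` is `p`-congruent to `y² = x³ + A₀ x + B₀` for some prime `p ≥ P` -/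
def IsPartner (P : ℕ) (A₀ B₀ : ℤ) (j : ℚ) : Prop :=
  ∃ A B : ℚ, 4 * A ^ 3 + 27 * B ^ 2 ≠ 0 ∧ jInvariant A B = j ∧
    ∃ p : ℕ, p.Prime ∧ P ≤ p ∧ Congruent p A B (A₀ : ℚ) (B₀ : ℚ)

/-- this is the case for some curve `y² = x³ + A₀ x + B₀` with integers `A₀`, `B₀` of absolute value at most
`H(j) ^ δ` -/
def HasSmallPartner (P : ℕ) (δ : ℝ) (j : ℚ) : Prop :=
  ∃ A₀ B₀ : ℤ, 4 * A₀ ^ 3 + 27 * B₀ ^ 2 ≠ 0 ∧ |(A₀ : ℝ)| ≤ (ht j : ℝ) ^ δ ∧ |(B₀ : ℝ)| ≤ (ht j : ℝ) ^ δ ∧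
    IsPartner P A₀ B₀ j

theorem part1 (X : Type) [MetricSpace X] (c : ℚ → X) (P : ℕ) (τ : ℝ) (hP : 17 ≤ P) (hτ : 0 < τ) :
    ∃ E : Set X, dimH E ≤ ENNReal.ofReal (7 / (2 * P) / τ) ∧ ∀ x ∉ E, ∀ A₀ B₀ : ℤ,
      4 * A₀ ^ 3 + 27 * B₀ ^ 2 ≠ 0 → {j ∈ Near c τ x | IsPartner P A₀ B₀ j}.Finite := by
  have key : ∀ z : {z : ℤ × ℤ // 4 * z.1 ^ 3 + 27 * z.2 ^ 2 ≠ 0},
      dimH {x : X | {j | j ∈ InvariantWindows.Exc P z.1.1 z.1.2 ∧ dist x (c j) ≤ (ht j : ℝ) ^ (-τ)}.Infinite} ≤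
        ENNReal.ofReal (7 / (2 * P) / τ) := fun z =>
    Pool.Agent.Helper29S.dim_family _ c (fun j => (ht j : ℝ)) (fun j => by
      exact_mod_cast Pool.Agent.Seat74.FM.one_le_ht j) (by positivity) hτ
      (Pool.Agent.Seat74.FM.countE P hP z.1.1 z.1.2 z.2)
  refine ⟨⋃ z : {z : ℤ × ℤ // 4 * z.1 ^ 3 + 27 * z.2 ^ 2 ≠ 0},
    {x : X | {j | j ∈ InvariantWindows.Exc P z.1.1 z.1.2 ∧ dist x (c j) ≤ (ht j : ℝ) ^ (-τ)}.Infinite}, ?_,
    fun x hx A₀ B₀ h0 => ?_⟩
  · rw [dimH_iUnion]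
    exact iSup_le key
  · by_contra hcon
    apply hx
    rw [Set.mem_iUnion]
    refine ⟨⟨(A₀, B₀), h0⟩, ?_⟩
    intro hfin
    exact hcon (hfin.subset fun j hj => ⟨hj.2, hj.1⟩)

theorem part2 (η : ℝ) (hη : 0 < η) : ∃ δ : ℝ, 0 < δ ∧ ∀ (X : Type) [MetricSpace X] (c : ℚ → X) (P : ℕ) (τ : ℝ),
    17 ≤ P → 0 < τ → ∃ E : Set X, dimH E ≤ ENNReal.ofReal ((7 / (2 * P) + η) / τ) ∧ ∀ x ∉ E,
      {j ∈ Near c τ x | HasSmallPartner P δ j}.Finite := by
  obtain ⟨δ, hδ, C, hC, h⟩ := Pool.Agent.Seat74.FM.countG η hη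
  refine ⟨δ, hδ, fun X _ c P τ hP hτ => ⟨_, Pool.Agent.Helper29S.dim_family (Pool.Agent.Seat74.FM.ExcG P δ) c
    (fun j => (ht j : ℝ)) (fun j => by exact_mod_cast Pool.Agent.Seat74.FM.one_le_ht j)
    (s := 7 / (2 * P) + η) (by positivity) hτ (fun ε hε => ⟨C, fun H hH F hF => ?_⟩), fun x hx => ?_⟩⟩
  · refine (h P H hP hH F hF).trans ?_
    refine mul_le_mul_of_nonneg_left ?_ hC
    exact Real.rpow_le_rpow_of_exponent_le hH (by linarith)
  · by_contra hcon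
    apply hx
    intro hfin
    exact hcon (hfin.subset fun j hj => ⟨hj.2, hj.1⟩)

/-- **Theorem.** See above. -/
theorem result :
    (∀ (X : Type) [MetricSpace X] (c : ℚ → X) (P : ℕ) (τ : ℝ), 17 ≤ P → 0 < τ →
      ∃ E : Set X, dimH E ≤ ENNReal.ofReal (7 / (2 * P) / τ) ∧ ∀ x ∉ E, ∀ A₀ B₀ : ℤ,
        4 * A₀ ^ 3 + 27 * B₀ ^ 2 ≠ 0 → {j ∈ Near c τ x | IsPartner P A₀ B₀ j}.Finite) ∧
    (∀ η : ℝ, 0 < η → ∃ δ : ℝ, 0 < δ ∧ ∀ (X : Type) [MetricSpace X] (c : ℚ → X) (P : ℕ) (τ : ℝ), 17 ≤ P → 0 < τ →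
      ∃ E : Set X, dimH E ≤ ENNReal.ofReal ((7 / (2 * P) + η) / τ) ∧ ∀ x ∉ E,
        {j ∈ Near c τ x | HasSmallPartner P δ j}.Finite) ∧
    (∀ (X : Type) [MetricSpace X] (c : ℚ → X), ∃ E : Set X, dimH E = 0 ∧ ∀ x ∉ E, ∀ τ : ℝ, 0 < τ →
      ∃ (P : ℕ) (δ : ℝ), 0 < δ ∧ {j ∈ Near c τ x | HasSmallPartner P δ j}.Finite) := by
  refine ⟨fun X _ c P τ hP hτ => part1 X c P τ hP hτ, part2, fun X _ c => ?_⟩
  choose! δ hδ h using part2
  have h1 : ∀ l m : ℕ, ∃ E : Set X, dimH E ≤ ENNReal.ofReal ((7 / (2 * ((m + 17 : ℕ) : ℝ)) + 1 / ((m : ℝ) + 1)) /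
      (1 / ((l : ℝ) + 1))) ∧ ∀ x ∉ E,
        {j ∈ Near c (1 / ((l : ℝ) + 1)) x | HasSmallPartner (m + 17) (δ (1 / ((m : ℝ) + 1))) j}.Finite := fun l m =>
    h (1 / ((m : ℝ) + 1)) (by positivity) X c (m + 17) (1 / ((l : ℝ) + 1)) (by omega) (by positivity)
  choose E hE1 hE2 using h1
  refine ⟨⋃ l, ⋂ m, E l m, ?_, fun x hx τ hτ => ?_⟩
  · refine le_antisymm ?_ bot_le
    rw [dimH_iUnion]
    refine iSup_le fun l => ?_
    have hlim : Tendsto (fun m : ℕ => ENNReal.ofReal ((7 / (2 * ((m + 17 : ℕ) : ℝ)) + 1 / ((m : ℝ) + 1)) /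
      (1 / ((l : ℝ) + 1)))) atTop (𝓝 0) := by
      rw [← ENNReal.ofReal_zero]
      apply ENNReal.tendsto_ofReal
      have e1 : Tendsto (fun m : ℕ => 7 / (2 * ((m + 17 : ℕ) : ℝ))) atTop (𝓝 0) := by
        apply Filter.Tendsto.const_div_atTop
        apply Filter.Tendsto.const_mul_atTop (by norm_num)
        have : Tendsto (fun m : ℕ => (m : ℝ) + 17) atTop atTop :=
          tendsto_atTop_add_const_right _ _ tendsto_natCast_atTop_atTop
        refine this.congr fun m => ?_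
        push_cast
        ring
      have e2 : Tendsto (fun m : ℕ => 1 / ((m : ℝ) + 1)) atTop (𝓝 0) := tendsto_one_div_add_atTop_nhds_zero_nat
      have e3 := (e1.add e2).div_const (1 / ((l : ℝ) + 1))
      rwa [add_zero, zero_div] at e3
    exact ge_of_tendsto' hlim fun m => (dimH_mono (Set.iInter_subset _ m)).trans (hE1 l m)
  · obtain ⟨l, hl⟩ := exists_nat_ge (1 / τ)
    have h2 : x ∉ ⋂ m, E l m := fun hcon => hx (Set.mem_iUnion.2 ⟨l, hcon⟩)
    rw [Set.mem_iInter] at h2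
    push Not at h2
    obtain ⟨m, hm⟩ := h2
    refine ⟨m + 17, δ (1 / ((m : ℝ) + 1)), hδ _ (by positivity), (hE2 l m x hm).subset ?_⟩
    rintro j ⟨hj1, hj2⟩
    have h3 : (1 : ℝ) ≤ ht j := by exact_mod_cast Pool.Agent.Seat74.FM.one_le_ht j
    have h4 : 1 / ((l : ℝ) + 1) ≤ τ := by
      rw [div_le_iff₀ (by positivity)]
      rw [div_le_iff₀ hτ] at hl
      nlinarith
    have h5 : (ht j : ℝ) ^ (-τ) ≤ (ht j : ℝ) ^ (-(1 / ((l : ℝ) + 1))) :=
      Real.rpow_le_rpow_of_exponent_le h3 (by linarith)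
    have h6 : dist x (c j) ≤ (ht j : ℝ) ^ (-τ) := hj1
    exact ⟨h6.trans h5, hj2⟩

/-- the real numbers -/
example (P : ℕ) (τ : ℝ) (hP : 17 ≤ P) (hτ : 0 < τ) := part1 ℝ (fun j => (j : ℝ)) P τ hP hτ

/-- the `q`-adic numbers -/
example (q : ℕ) [Fact q.Prime] (P : ℕ) (τ : ℝ) (hP : 17 ≤ P) (hτ : 0 < τ) :=
  part1 ℚ_[q] (fun j => (j : ℚ_[q])) P τ hP hτ

end Pool.Agent.Results.MP_a60a76_nt.InvariantsNearPoints
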