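import Pool.Agent.Helper36x.FM.Final

/-!
# MP_a60a76_nt: 100% of the elliptic curves have no congruence with any twist of a curve of height at
most `H(E) ^ (11/8 - ε)`

For 100% of the elliptic curves `E` over `ℚ`, ordered by height: let `E'` be any quadratic twist of any
elliptic curve of height at most `H(E) ^ (11/8 - ε)` (the twist itself may have any height) and suppose
that `E[p] ≅ E'[p]` for some prime `p ≥ 17`; then `E'` is isomorphic to `E` over `ℚ`.

Proof.  We may take `E' = E₁ ^ (d)` with `E₁ : y² = x³ + A'x + B'` of minimal discriminant `D'` among its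
twists.  Let `g` be the product of the primes `q ≥ 5` dividing `D = 4A³ + 27B²` exactly once; for almost
all curves `g` is almost as large as `D`.  Comparing the representations locally, also at `p`, one finds:
the primes dividing `g` divide `D'`, and not `A'`; a prime `l ∤ 6D` dividing `D'` does not divide `A'`,
and `l ^ 17` divides `D'`.  Hence `D' = g a w y`, all primes dividing `a` divide `g`, those dividing `w`
divide `6D/g`, and `y` is `17`-full.
(1) If the height of `E₁` is at most `H(E) ^ (1 + 1/12)`, then `m D' = t D` with small integers `m`, `t`;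
for given `m, t, A, A'` this is the equation `u² - d v² = N` for `B, B'`, which has few solutions unless
`E₁` is a twist of `E` (as in the earlier result `MP_f5d5f4_nt.EveryLevel`).
(2) Let `E₁` be of size `T ^ (1 + δ)`, `1/12 ≤ δ < 3/8`, that of `E` being `T`.  Now `a y w` is large, and
`R = a · rad(a) · w · y` divides `D'`.  For given `A'` and `a, w, y` the number `B'` lies in a few residue
classes modulo (almost) `R` and in short intervals, as `|D'| ≤ T ^ 6 · a w y`.  Adding up, there are few
such curves `E₁`; each belongs to few discriminants `D`, and almost all `E` are determined by `D` up to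
the sign of `B`.
(3) If `E₁` is a twist of `E`, then `E` is congruent to its twist by some `c ∈ ℚ`; as `E` has a prime of
multiplicity one, its representation modulo `p` is not dihedral, and `c` is a square.
-/

set_option autoImplicit false

open WeierstrassCurve Filter Topology
open scoped Classical

namespace Pool.Agent.Results.MP_a60a76_nt.LargerCurvesAndTwists

/-- The curve `y² = x³ + Ax + B` over `ℚ`. -/
def curve (A B : ℚ) : WeierstrassCurve ℚ := ⟨0, 0, 0, A, B⟩

/-- The group of its points over the algebraic closure of `ℚ`. -/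
abbrev Points (A B : ℚ) : Type := ((curve A B).baseChange (AlgebraicClosure ℚ)).toAffine.Point

/-- The action of an automorphism `σ` of the algebraic closure on the points. -/
noncomputable def galois (A B : ℚ) (σ : AlgebraicClosure ℚ ≃ₐ[ℚ] AlgebraicClosure ℚ) :
    Points A B →+ Points A B :=
  WeierstrassCurve.Affine.Point.map (σ : AlgebraicClosure ℚ →ₐ[ℚ] AlgebraicClosure ℚ)

/-- The curves `y² = x³ + Ax + B` and `y² = x³ + A'x + B'` are `p`-congruent: some map between the
groups of points restricts to a bijective additive map between the groups of points killed by `p` which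
commutes with the Galois group. -/
def Congruent (p : ℕ) (A B A' B' : ℚ) : Prop :=
  ∃ f : Points A B → Points A' B', (∀ P Q, p • P = 0 → p • Q = 0 → f (P + Q) = f P + f Q) ∧
    Set.BijOn f {P | p • P = 0} {Q | p • Q = 0} ∧
    ∀ (σ : AlgebraicClosure ℚ ≃ₐ[ℚ] AlgebraicClosure ℚ) (P : Points A B), p • P = 0 →
      f (galois A B σ P) = galois A' B' σ (f P)

/-- The curves are isomorphic over `ℚ`. -/
def Isomorphic (A B A' B' : ℚ) : Prop := ∃ u : ℚ, u ≠ 0 ∧ A' = u ^ 4 * A ∧ B' = u ^ 6 * B

/-- The equations with `|A| ≤ T²` and `|B| ≤ T³`. -/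
def Box (T : ℕ) : Set (ℤ × ℤ) := {p | |p.1| ≤ (T : ℤ) ^ 2 ∧ |p.2| ≤ (T : ℤ) ^ 3}

/-- The discriminant, up to the factor `-16`. -/
def disc (A B : ℤ) : ℤ := 4 * A ^ 3 + 27 * B ^ 2

/-- The height of `y² = x³ + Ax + B`. -/
def height (A B : ℤ) : ℤ := max (4 * |A| ^ 3) (27 * B ^ 2)

/-- Let `E : y² = x³ + Ax + B`.  For every `E' : y² = x³ + A'x + B'` of height at most `H(E)^(1+κ)`,
every quadratic twist `y² = x³ + d²A'x + d³B'` of `E'` and every prime `p ≥ 17`: if the twist is
`p`-congruent to `E`, then it is isomorphic to `E` over `ℚ`. -/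
def NoCongruence (κ : ℝ) (A B : ℤ) : Prop :=
  ∀ A' B' : ℤ, disc A' B' ≠ 0 → (height A' B' : ℝ) ≤ (height A B : ℝ) ^ (1 + κ) →
    ∀ d : ℚ, d ≠ 0 → ∀ p : ℕ, p.Prime → 17 ≤ p →
      Congruent p A B (d ^ 2 * A') (d ^ 3 * B') → Isomorphic A B (d ^ 2 * A') (d ^ 3 * B')

/-- **Frey-Mazur for 100% of the curves against all twists of all curves of height at most
`H(E)^(11/8 - ε)`.**  Let `0 ≤ κ < 3/8`.  The proportion of the pairs `(A, B)` in the box `|A| ≤ T²`,
`|B| ≤ T³` for which `y² = x³ + Ax + B` is an elliptic curve and `NoCongruence κ A B` holds tends to `1`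
as `T → ∞`. -/
theorem result (κ : ℝ) (h₀ : 0 ≤ κ) (h : κ < 3 / 8) :
    Tendsto (fun T : ℕ =>
      (({p | p ∈ Box T ∧ disc p.1 p.2 ≠ 0 ∧ NoCongruence κ p.1 p.2} : Set (ℤ × ℤ)).ncard : ℝ) /
      ((Box T).ncard : ℝ)) atTop (𝓝 1) := by
  have h' := Pool.Agent.W275.FM.lim_one (Pool.Agent.Helper36x.FM.Bad κ)
    (fun ε hε => Pool.Agent.Helper36x.FM.bad_rare κ h₀ h ε hε)
  refine h'.congr fun T => ?_
  congr 2
  congr 1
  ext p
  constructor
  · rintro ⟨g1, g2, g3⟩
    refine ⟨g1, g2, fun A' B' k1 k2 d k3 l k4 k5 hc => ?_⟩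
    by_contra hn
    obtain ⟨f, c1, c2, c3⟩ := hc
    exact g3 ⟨A', B', d, l, f, k1, k2, k3, k4, k5, ⟨c1, c2, c3⟩, hn⟩
  · rintro ⟨g1, g2, g3⟩
    refine ⟨g1, g2, ?_⟩
    rintro ⟨A', B', d, l, f, k1, k2, k3, k4, k5, hf, hn⟩
    exact hn (g3 A' B' k1 k2 d k3 l k4 k5 ⟨f, hf.add, hf.bij, hf.eqv⟩)

end Pool.Agent.Results.MP_a60a76_nt.LargerCurvesAndTwists
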