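import Pool.Agent.Results.MP_a60a76_nt.ExplicitPartners
import Pool.Agent.Helper264.NT.NearK

/-!
# No congruences between curves whose pair of invariants is near a typical point

Let `X` be any metric space and `e` any map which attaches a point of `X` to a rational number `j₀` and an algebraic number
`j`; for instance `e (j₀, j) = (j₀, j) ∈ ℝ × ℂ`, or, for rational `j`, in `ℚ_l × ℝ`. Let `D ≥ 1`, `ε > 0`. There is `c > 0`
such that for all `N ≥ max (5, D)`, `0 ≤ β ≤ 1` and `τ > 0`, for each `x` in `X` outside a set of Hausdorff dimension at most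
`(2 β + 5 D³ / N + ε) / τ` and all large `T`: for ALL rational numbers `j₀ ≠ 0, 1728` of height at most `T ^ β` and ALL
algebraic numbers `j` of degree at most `D` and (naive) height at most `T` with `dist (x, e (j₀, j)) ≤ T ^ (-τ)`, no
elliptic curve of invariant `j` over a number field `K` of degree at most `D` is `p`-congruent over `K` to an elliptic
curve over `K` of invariant `j₀`, for any prime `p` with `N ≤ p ≤ exp (c √(log T))`.

Examples, `N = 19` (the first prime of the conjecture).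
* `D = 1`, `β = 1`, `X = ℝ × ℝ`: the dimension is at most `(2.27 + ε) / τ`, and so less than `2` for `τ > 1.14`. For every
  `τ < 2` almost all `x = (x₀, x₁)` have infinitely many approximations by pairs of rational numbers of height at most
  `T` with the distance at most `T ^ (-τ)`, on average about `T ^ (4 - 2 τ)` of them for each `T`.
* `D = 1`, `X = ℝ`, `e (j₀, j) = j`, `β` small: the curves with invariant `j` near `x` are not congruent to any curve with
  invariant of height at most `H(j) ^ β`, if `x` is outside a set of dimension at most `(2 β + 0.27 + ε) / τ`. In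
  particular this is true for every fixed `j₀`.

The starting result `ExplicitPartners` is the count behind this theorem, for one `j₀`. The starting result
`MP_f5d5f4_nt.PairsNearAPoint` is about pairs `(F(t) / G(t), j₀)` such that `F / G` has two poles, all primes `p ≥ N` with `N`
depending on the point, and has the exceptional dimension `2 / τ`; the map `F(t) / G(t) = t` of this theorem has only one
pole.

Proof: there are `O (T ^ (2 β))` numbers `j₀` and for each of them at most `C T ^ (5 D³ / N + ε)` numbers `j`; coverings by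
balls of radius `T ^ (-τ)` at the dyadic scales (`Pool.Agent.Helper264.NT.dyadicM`).
-/

set_option autoImplicit false

open scoped ENNReal

namespace Pool.Agent.Results.MP_a60a76_nt.PairsNearPoints

open Pool.Agent.Results.MP_a60a76_nt.ExplicitPartners (Partners HeightAtMost)

/-- the height of a rational number: the maximum of the absolute values of numerator and denominator -/
def height (j : ℚ) : ℕ := max j.num.natAbs j.den

theorem partners_mono {D N : ℕ} {c X Y : ℝ} (hc : 0 < c) (hX : 0 < X) (h : X ≤ Y) (j₀ : ℚ) :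
    Partners D N c X j₀ ⊆ Partners D N c Y j₀ := by
  rintro j ⟨⟨P, h1, h2, h3, h4⟩, K, iF, iN, σ, A, B, A₀, B₀, g1, g2, g3, g4, g5, p, hp, hNp, hpX, hcong⟩
  refine ⟨⟨P, h1, h2, fun i => (h3 i).trans h, h4⟩, K, iF, iN, σ, A, B, A₀, B₀, g1, g2, g3, g4, g5, p, hp, hNp,
    hpX.trans ?_, hcong⟩
  rw [Real.exp_le_exp]
  exact mul_le_mul_of_nonneg_left (Real.sqrt_le_sqrt (Real.log_le_log hX h)) hc.le

/-- the rational numbers of bounded height -/
theorem count_height (Y : ℝ) (hY : 1 ≤ Y) : {j : ℚ | (height j : ℝ) ≤ Y}.Finite ∧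
    (({j : ℚ | (height j : ℝ) ≤ Y}.ncard : ℕ) : ℝ) ≤ 6 * Y ^ 2 := by
  classical
  have hY0 : 0 ≤ Y := by linarith
  set N : ℕ := ⌊Y⌋₊ with hN
  have hNY : (N : ℝ) ≤ Y := Nat.floor_le hY0
  set F : Finset (ℤ × ℕ) := (Finset.Icc (-(N : ℤ)) N) ×ˢ (Finset.Icc 0 N) with hF
  set f : ℚ → ℤ × ℕ := fun j => (j.num, j.den) with hf
  have hinj : Function.Injective f := by
    intro a b hab
    have h1 : a.num = b.num := congrArg Prod.fst hab
    have h2 : a.den = b.den := congrArg Prod.snd hab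
    exact Rat.ext h1 h2
  have hmem : ∀ j ∈ {j : ℚ | (height j : ℝ) ≤ Y}, f j ∈ F := by
    intro j hj
    have h1 : height j ≤ N := Nat.le_floor hj
    have h2 : j.num.natAbs ≤ N := (le_max_left _ _).trans h1
    have h3 : j.den ≤ N := (le_max_right _ _).trans h1
    rw [hF, Finset.mem_product, Finset.mem_Icc, Finset.mem_Icc]
    refine ⟨⟨?_, ?_⟩, Nat.zero_le _, h3⟩
    · show -(N : ℤ) ≤ j.num
      omega
    · show j.num ≤ N
      omega
  have hfin : {j : ℚ | (height j : ℝ) ≤ Y}.Finite :=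
    Set.Finite.of_finite_image ((Finset.finite_toSet F).subset (by
      rintro _ ⟨j, hj, rfl⟩
      exact hmem j hj)) hinj.injOn
  refine ⟨hfin, ?_⟩
  have h1 : {j : ℚ | (height j : ℝ) ≤ Y}.ncard ≤ F.card := by
    rw [← Set.ncard_coe_finset]
    exact Set.ncard_le_ncard_of_injOn f hmem hinj.injOn (Finset.finite_toSet F)
  have h2 : F.card = (2 * N + 1) * (N + 1) := by
    rw [hF, Finset.card_product, Int.card_Icc, Nat.card_Icc]
    congr 1
    omega
  calc (({j : ℚ | (height j : ℝ) ≤ Y}.ncard : ℕ) : ℝ) ≤ ((2 * N + 1) * (N + 1) : ℕ) := by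
        rw [← h2]
        exact_mod_cast h1
    _ = (2 * (N : ℝ) + 1) * ((N : ℝ) + 1) := by push_cast; ring
    _ ≤ (3 * Y) * (2 * Y) := by
        have : (0 : ℝ) ≤ N := Nat.cast_nonneg N
        gcongr <;> linarith
    _ = 6 * Y ^ 2 := by ring

/-- **Theorem.** For every `D ≥ 1` and `ε > 0` there is `c > 0` such that for all metric spaces `X`, all maps
`e : ℚ × ℂ → X`, all `N ≥ max (5, D)`, `0 ≤ β ≤ 1` and `τ > 0` there is `E ⊆ X` of Hausdorff dimension at most
`(2 β + 5 D³ / N + ε) / τ` such that for all `x` outside `E` and all large `T`: if `j₀ ≠ 0, 1728` is a rational number of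
height at most `T ^ β` and `dist x (e (j₀, j)) ≤ T ^ (-τ)`, then `j` is not an algebraic number of degree at most `D` and
height at most `T` which is the invariant of a curve `p`-congruent to a curve of invariant `j₀` over a number field of
degree at most `D` for a prime `p`, `N ≤ p ≤ exp (c √(log T))`. -/
theorem result (D : ℕ) (hD : 1 ≤ D) (ε : ℝ) (hε : 0 < ε) : ∃ c : ℝ, 0 < c ∧
    ∀ (X : Type) [MetricSpace X] (e : ℚ → ℂ → X) (N : ℕ) (β τ : ℝ), 5 ≤ N → D ≤ N → 0 ≤ β → β ≤ 1 → 0 < τ →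
      ∃ E : Set X, dimH E ≤ ENNReal.ofReal ((2 * β + 5 * (D : ℝ) ^ 3 / N + ε) / τ) ∧ ∀ x ∉ E,
        ∃ T₀ : ℝ, ∀ T : ℝ, T₀ ≤ T → ∀ j₀ : ℚ, j₀ ≠ 0 → j₀ ≠ 1728 → (height j₀ : ℝ) ≤ T ^ β → ∀ j : ℂ,
          dist x (e j₀ j) ≤ T ^ (-τ) → j ∉ Partners D N c T j₀ := by
  classical
  obtain ⟨C₀, c, hc, h⟩ := ExplicitPartners.result D hD ε hε
  set C : ℝ := max C₀ 0 with hC
  have hC0 : 0 ≤ C := le_max_right _ _
  refine ⟨c, hc, fun X _ e N β τ hN5 hDN hβ0 hβ1 hτ => ?_⟩
  have hN0 : (0 : ℝ) < N := by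
    have : (5 : ℝ) ≤ N := by exact_mod_cast hN5
    linarith
  set s : ℝ := 5 * (D : ℝ) ^ 3 / N + ε with hs
  have hs0 : 0 ≤ s := by positivity
  -- the pairs at the level `T`
  set Pr : ℝ → Set (ℚ × ℂ) := fun T =>
    {z | z.1 ≠ 0 ∧ z.1 ≠ 1728 ∧ (height z.1 : ℝ) ≤ T ^ β ∧ z.2 ∈ Partners D N c T z.1} with hPr
  have hcount : ∀ T : ℝ, 1 ≤ T → (Pr T).Finite ∧ (((Pr T).ncard : ℕ) : ℝ) ≤ 6 * C * T ^ (2 * β + s) := by
    intro T hT
    have hT0 : 0 < T := by linarith
    have hY1 : 1 ≤ T ^ β := Real.one_le_rpow hT hβ0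
    have hYT : T ^ β ≤ T := by
      calc T ^ β ≤ T ^ (1 : ℝ) := Real.rpow_le_rpow_of_exponent_le hT hβ1
        _ = T := Real.rpow_one T
    obtain ⟨hf, hn⟩ := count_height (T ^ β) hY1
    set J : Finset ℚ := hf.toFinset.filter fun j => j ≠ 0 ∧ j ≠ 1728 with hJ
    have hpart : ∀ j ∈ J, (Partners D N c T j).Finite ∧
        (((Partners D N c T j).ncard : ℕ) : ℝ) ≤ C * T ^ s := by
      intro j hj
      rw [hJ, Finset.mem_filter, Set.Finite.mem_toFinset] at hj
      obtain ⟨h1, h2, h3⟩ := hj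
      have h4 : (height j : ℝ) ≤ T := le_trans h1 hYT
      have hn' : (j.num.natAbs : ℝ) ≤ (height j : ℝ) := by exact_mod_cast le_max_left j.num.natAbs j.den
      have hd' : (j.den : ℝ) ≤ (height j : ℝ) := by exact_mod_cast le_max_right j.num.natAbs j.den
      have ha : |(j.num : ℝ)| = (j.num.natAbs : ℝ) := by
        rw [← Int.cast_abs, Int.abs_eq_natAbs]
        simp
      obtain ⟨g1, g2⟩ := h N hN5 hDN T hT j h2 h3 (by rw [ha]; exact hn'.trans h4) (hd'.trans h4)
      refine ⟨g1, g2.trans ?_⟩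
      exact mul_le_mul_of_nonneg_right (le_max_left _ _) (Real.rpow_nonneg hT0.le _)
    have hsub : Pr T ⊆ ⋃ j ∈ J, (fun z : ℂ => (j, z)) '' Partners D N c T j := by
      rintro ⟨j₀, z⟩ ⟨h1, h2, h3, h4⟩
      rw [Set.mem_iUnion₂]
      refine ⟨j₀, ?_, z, h4, rfl⟩
      rw [hJ, Finset.mem_filter, Set.Finite.mem_toFinset]
      exact ⟨h3, h1, h2⟩
    have hfinU : (⋃ j ∈ J, (fun z : ℂ => (j, z)) '' Partners D N c T j).Finite :=
      Set.Finite.biUnion J.finite_toSet fun j hj => ((hpart j hj).1).image _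
    refine ⟨hfinU.subset hsub, ?_⟩
    have h1 : ((J.card : ℕ) : ℝ) ≤ 6 * (T ^ β) ^ 2 := by
      refine le_trans ?_ hn
      have h2 : J.card ≤ hf.toFinset.card := Finset.card_filter_le _ _
      rw [Set.ncard_eq_toFinset_card _ hf]
      exact_mod_cast h2
    calc (((Pr T).ncard : ℕ) : ℝ)
        ≤ (((⋃ j ∈ J, (fun z : ℂ => (j, z)) '' Partners D N c T j).ncard : ℕ) : ℝ) := by
          exact_mod_cast Set.ncard_le_ncard hsub hfinU
      _ ≤ ∑ j ∈ J, ((((fun z : ℂ => (j, z)) '' Partners D N c T j).ncard : ℕ) : ℝ) := by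
          exact_mod_cast Finset.set_ncard_biUnion_le J _
      _ ≤ ∑ _j ∈ J, C * T ^ s := by
          refine Finset.sum_le_sum fun j hj => ?_
          refine le_trans ?_ (hpart j hj).2
          exact_mod_cast Set.ncard_image_le (hpart j hj).1
      _ = (J.card : ℝ) * (C * T ^ s) := by rw [Finset.sum_const, nsmul_eq_mul]
      _ ≤ 6 * (T ^ β) ^ 2 * (C * T ^ s) := by
          gcongr
      _ = 6 * C * T ^ (2 * β + s) := by
          have e2 : T ^ (2 * β + s) = (T ^ β) ^ 2 * T ^ s := by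
            rw [← Real.rpow_natCast (T ^ β) 2, ← Real.rpow_mul hT0.le, ← Real.rpow_add hT0]
            congr 1
            push_cast
            ring
          rw [e2]
          ring
  -- the finite sets at the dyadic scales
  have hpow1 : ∀ i : ℕ, (1 : ℝ) ≤ 2 ^ (i + 1) := fun i => one_le_pow₀ (by norm_num)
  set U : ℕ → Finset X := fun i => (hcount (2 ^ (i + 1)) (hpow1 i)).1.toFinset.image fun z => e z.1 z.2 with hU
  obtain ⟨E, hE1, hE2⟩ := Pool.Agent.Helper264.NT.dyadicM (M := X) (s := 2 * β + s) (σ1 := τ)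
    (C := 6 * C * 2 ^ (2 * β + s)) (by positivity) hτ U (by
      intro i
      obtain ⟨g1, g2⟩ := hcount (2 ^ (i + 1)) (hpow1 i)
      have h1 : (U i).card ≤ (Pr (2 ^ (i + 1))).ncard := by
        rw [hU, Set.ncard_eq_toFinset_card _ g1]
        exact Finset.card_image_le
      calc ((U i).card : ℝ) ≤ (((Pr (2 ^ (i + 1))).ncard : ℕ) : ℝ) := by exact_mod_cast h1
        _ ≤ 6 * C * (2 ^ (i + 1)) ^ (2 * β + s) := g2
        _ = 6 * C * 2 ^ (2 * β + s) * ((2 : ℝ) ^ i) ^ (2 * β + s) := by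
            rw [pow_succ, Real.mul_rpow (by positivity) (by norm_num)]
            ring)
  refine ⟨E, ?_, fun x hx => ?_⟩
  · have e1 : 2 * β + 5 * (D : ℝ) ^ 3 / N + ε = 2 * β + s := by rw [hs]; ring
    rw [e1]
    exact hE1
  · obtain ⟨i0, hi0⟩ := hE2 x hx
    refine ⟨2 ^ i0, fun T hT j₀ h1 h2 h3 j hd hj => ?_⟩
    have hT1 : 1 ≤ T := le_trans (one_le_pow₀ (by norm_num)) hT
    have hT0 : 0 < T := by linarith
    -- the dyadic scale of `T`
    obtain ⟨i, hi1, hi2⟩ : ∃ i : ℕ, (2 : ℝ) ^ i ≤ T ∧ T < 2 ^ (i + 1) :=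
      exists_nat_pow_near hT1 (by norm_num)
    have hii : i0 ≤ i := by
      by_contra hcon
      push Not at hcon
      have h4 : (2 : ℝ) ^ (i + 1) ≤ 2 ^ i0 := pow_le_pow_right₀ (by norm_num) hcon
      linarith
    have hmem : e j₀ j ∈ U i := by
      rw [hU]
      simp only [Finset.mem_image, Set.Finite.mem_toFinset]
      refine ⟨(j₀, j), ⟨h1, h2, ?_, partners_mono hc hT0 hi2.le j₀ hj⟩, rfl⟩
      exact h3.trans (Real.rpow_le_rpow hT0.le hi2.le hβ0)
    refine hi0 i hii _ hmem ?_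
    rw [dist_comm]
    refine hd.trans ?_
    exact Real.rpow_le_rpow_of_nonpos (by positivity) hi1 (by linarith)

end Pool.Agent.Results.MP_a60a76_nt.PairsNearPoints
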